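import Pool.Agent.Helper3_DA.LastUnit
import Pool.Agent.Helper95_CLB.Kext

/-!
Tight labellings along a caterpillar: a parity functional on the labels determines the distance of two ports
modulo 4.
-/

set_option autoImplicit false

namespace CLB.H2

open CLB.H95
open CLB.H3 (pos)
open H3DA (Q neg nr)

/-- The sum (mod 2) of the two coordinates other than the axis of `D`. -/
def xi (D : Ty) (x : Q) : Bool :=
  xor (xor x.1 x.2.1) (xor x.2.2 (if D.1 = 0 then x.1 else if D.1 = 1 then x.2.1 else x.2.2))

lemma xi_neg : ∀ (D : Ty) (x : Q), xi D (neg x) = xi D x := by decide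

lemma xi_frk : ∀ (D : Ty) (x y : Q), frk D x y = true → xi D x = xi D y := by decide

lemma xi_frk_co : ∀ (D : Ty) (x y : Q), frk (co D) x y = true → xi D x = xi D y := by decide

lemma xi_stp : ∀ (D : Ty) (x y : Q), stp D (neg x) y = true → xi D y = xor (xi D x) (!D.2) := by decide

lemma xi_stp_co : ∀ (D : Ty) (x y : Q), stp (co D) (neg x) y = true → xi D y = xor (xi D x) D.2 := by
  decide

/-- A near label is a step of exactly one of the two types, decided by `xi`. -/
lemma stp_of_xi : ∀ (D : Ty) (x y : Q), nr (neg x) y = true → xi D y = xor (xi D x) (!D.2) →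
    stp D (neg x) y = true := by decide

lemma stp_co_of_xi : ∀ (D : Ty) (x y : Q), nr (neg x) y = true → xi D y = xor (xi D x) D.2 →
    stp (co D) (neg x) y = true := by decide

/-- The number of steps `1, ..., p - 1` of the type with two moves, modulo 2. -/
def cntp (D : Ty) (p : ℕ) : Bool := if D.2 then decide (((p - 1) / 2) % 2 = 1) else decide ((p / 2) % 2 = 1)

lemma xi_inner {D : Ty} {s : ℕ → Q} {m : ℕ} (h : Tight D s m) : ∀ i, 1 ≤ i → i ≤ m →
    xi D (s i) = xor (xi D (s 1)) (cntp D i) := by
  intro i hi
  induction i, hi using Nat.le_induction with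
  | base =>
    intro _
    unfold cntp
    split_ifs <;> simp
  | succ n hn ih =>
    intro hm
    have h1 := ih (by omega)
    have h2 := h.2.1 n hn (by omega)
    unfold altT at h2
    by_cases hp : n % 2 = 1
    · rw [if_pos hp] at h2
      rw [xi_stp _ _ _ h2, h1]
      unfold cntp
      cases hD : D.2
      · have e : ((n + 1) / 2) % 2 = (n / 2 + 1) % 2 := by omega
        simp only [Bool.false_eq_true, if_false, e, Bool.not_false, Bool.xor_assoc]
        congr 1
        rcases Nat.mod_two_eq_zero_or_one (n / 2) with h3 | h3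
        · have : (n / 2 + 1) % 2 = 1 := by omega
          simp [h3, this]
        · have : (n / 2 + 1) % 2 = 0 := by omega
          simp [h3, this]
      · have e : ((n + 1 - 1) / 2) % 2 = ((n - 1) / 2) % 2 := by omega
        simp only [if_true, e, Bool.not_true, Bool.xor_false]
    · rw [if_neg hp] at h2
      rw [xi_stp_co _ _ _ h2, h1]
      unfold cntp
      cases hD : D.2
      · have e : ((n + 1) / 2) % 2 = (n / 2) % 2 := by omega
        simp only [Bool.false_eq_true, if_false, e, Bool.xor_false]
      · have e : ((n + 1 - 1) / 2) % 2 = ((n - 1) / 2 + 1) % 2 := by omega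
        simp only [if_true, e, Bool.xor_assoc]
        congr 1
        rcases Nat.mod_two_eq_zero_or_one ((n - 1) / 2) with h3 | h3
        · have : ((n - 1) / 2 + 1) % 2 = 1 := by omega
          simp [h3, this]
        · have : ((n - 1) / 2 + 1) % 2 = 0 := by omega
          simp [h3, this]

/-- The functional at every port. -/
theorem xi_tight {D : Ty} {s : ℕ → Q} {m : ℕ} (hm : 1 ≤ m) (h : Tight D s m) {i : ℕ} (hi : i ≤ m + 1) :
    xi D (s i) = xor (xi D (s 1)) (cntp D (pos m i)) := by
  unfold pos
  by_cases h0 : i = 0
  · rw [if_pos h0, h0]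
    have h1 : cntp D 1 = false := by unfold cntp; split_ifs <;> simp
    rw [h1, Bool.xor_false]
    exact xi_frk _ _ _ h.1
  · rw [if_neg h0]
    by_cases h1 : i = m + 1
    · rw [if_pos h1, h1, ← xi_inner h m hm le_rfl]
      have h2 := h.2.2
      unfold altT at h2
      split_ifs at h2
      · exact (xi_frk _ _ _ h2).symm
      · exact (xi_frk_co _ _ _ h2).symm
    · rw [if_neg h1]
      exact xi_inner h i (by omega) (by omega)

/-- **L1.** Antipodal labels at positions of the same parity are at a distance divisible by 4. -/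
theorem tight_mod4 {D : Ty} {s : ℕ → Q} {m : ℕ} (hm : 1 ≤ m) (h : Tight D s m) {i j : ℕ}
    (hi : i ≤ m + 1) (hj : j ≤ m + 1) (hp : (pos m i + pos m j) % 2 = 0) (hn : s j = neg (s i)) :
    pos m i % 4 = pos m j % 4 := by
  have h1 := xi_tight hm h hi
  have h2 := xi_tight hm h hj
  rw [hn, xi_neg, h1] at h2
  have h3 : cntp D (pos m i) = cntp D (pos m j) := by
    revert h2
    generalize xi D (s 1) = a
    generalize cntp D (pos m i) = b
    generalize cntp D (pos m j) = c
    revert a b c
    decide
  have p1 : 1 ≤ pos m i := by unfold pos; split_ifs <;> omega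
  have p2 : 1 ≤ pos m j := by unfold pos; split_ifs <;> omega
  unfold cntp at h3
  split_ifs at h3
  · rw [decide_eq_decide] at h3
    omega
  · rw [decide_eq_decide] at h3
    omega

/-- **L1'.** Near labels (after a change of sign) at positions of an odd distance: the step has the type of the
class modulo 4. -/
theorem tight_step {D : Ty} {s : ℕ → Q} {m : ℕ} (hm : 1 ≤ m) (h : Tight D s m) {i j : ℕ}
    (hi : i ≤ m + 1) (hj : j ≤ m + 1) (hij : pos m i < pos m j)
    (hn : nr (neg (s i)) (s j) = true) :
    ((pos m j - pos m i) % 4 = 1 → stp (altT D (pos m i)) (neg (s i)) (s j) = true) ∧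
    ((pos m j - pos m i) % 4 = 3 → stp (altT D (pos m i + 1)) (neg (s i)) (s j) = true) := by
  have h1 := xi_tight hm h hi
  have h2 := xi_tight hm h hj
  have p1 : 1 ≤ pos m i := by unfold pos; split_ifs <;> omega
  have key : ∀ r p q : ℕ, 1 ≤ p → p < q → ((q - p) % 4 = 1 ∧ r = p ∨ (q - p) % 4 = 3 ∧ r = p + 1) →
      xi D (s i) = xor (xi D (s 1)) (cntp D p) → xi D (s j) = xor (xi D (s 1)) (cntp D q) →
      stp (altT D r) (neg (s i)) (s j) = true := by
    intro r p q hp hpq hr e1 e2
    have e3 : xi D (s j) = xor (xi D (s i)) (xor (cntp D p) (cntp D q)) := by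
      rw [e1, e2]
      generalize xi D (s 1) = a
      generalize cntp D p = b
      generalize cntp D q = c
      revert a b c
      decide
    unfold altT
    by_cases hr2 : r % 2 = 1
    · rw [if_pos hr2]
      refine stp_of_xi _ _ _ hn ?_
      rw [e3]
      congr 1
      unfold cntp
      cases hD : D.2
      · simp only [Bool.false_eq_true, if_false, Bool.not_false]
        by_cases a1 : (p / 2) % 2 = 1
        · have a2 : ¬ (q / 2) % 2 = 1 := by omega
          simp [a1, a2]
        · have a2 : (q / 2) % 2 = 1 := by omega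
          simp [a1, a2]
      · simp only [if_true, Bool.not_true]
        by_cases a1 : ((p - 1) / 2) % 2 = 1
        · have a2 : ((q - 1) / 2) % 2 = 1 := by omega
          simp [a1, a2]
        · have a2 : ¬ ((q - 1) / 2) % 2 = 1 := by omega
          simp [a1, a2]
    · rw [if_neg hr2]
      refine stp_co_of_xi _ _ _ hn ?_
      rw [e3]
      congr 1
      unfold cntp
      cases hD : D.2
      · simp only [Bool.false_eq_true, if_false]
        by_cases a1 : (p / 2) % 2 = 1
        · have a2 : (q / 2) % 2 = 1 := by omega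
          simp [a1, a2]
        · have a2 : ¬ (q / 2) % 2 = 1 := by omega
          simp [a1, a2]
      · simp only [if_true]
        by_cases a1 : ((p - 1) / 2) % 2 = 1
        · have a2 : ¬ ((q - 1) / 2) % 2 = 1 := by omega
          simp [a1, a2]
        · have a2 : ((q - 1) / 2) % 2 = 1 := by omega
          simp [a1, a2]
  exact ⟨fun hd => key _ _ _ p1 hij (Or.inl ⟨hd, rfl⟩) h1 h2,
    fun hd => key _ _ _ p1 hij (Or.inr ⟨hd, rfl⟩) h1 h2⟩

end CLB.H2
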