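import Pool.Agent.Helper3_DA.FLemma
import Pool.Agent.Helper2_DA.TightMod
import Pool.Agent.Helper95_CLB.StatQ

/-!
A full unit with one leaf port (at `z m`) and one inner port: no port of a neighbouring unit is at a position
`m - 1` modulo 4.
-/

set_option autoImplicit false
set_option linter.unusedSectionVars false

namespace CLB.H2

open H3DA (Q neg nr)
open CLB.H95
open CLB.H3

/-- A Boolean form of the statement below. -/
def suc (T : Ty) (u mt a b : Q) : Bool :=
  !(frk T u mt) || !(nr a u) || !(nr b u) || !(stp T a u || stp T b u) ||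
    decide (∃ t : Q, t ≠ u ∧ nr t a = true ∧ nr t b = true ∧ t ≠ neg mt)

lemma su_key0 : ∀ (T : Ty) (u a b : Q), suc T u (add u (add (uD T) (vD T))) a b = true := by
  decide +kernel

/-- The other labels of the leaf. -/
lemma su_key (T : Ty) (u mt a b : Q) (h1 : frk T u mt = true) (h2 : nr a u = true)
    (h3 : nr b u = true) (h4 : stp T a u = true ∨ stp T b u = true) :
    ∃ t, t ≠ u ∧ nr t a = true ∧ nr t b = true ∧ t ≠ neg mt := by
  have h5 : mt = add u (add (uD T) (vD T)) := by
    unfold frk at h1
    exact beq_iff_eq.1 h1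
  have h6 := su_key0 T u a b
  rw [← h5] at h6
  unfold suc at h6
  have h7 : (stp T a u || stp T b u) = true := by
    rcases h4 with h4 | h4 <;> simp [h4]
  rw [h1, h2, h3, h7] at h6
  simpa using h6

open Finset Classical

/-- `tight_step` for one of the two signs. -/
theorem tight_step' {D : Ty} {s : ℕ → Q} {m : ℕ} (hm : 1 ≤ m) (h : Tight D s m) {i j : ℕ}
    (hi : i ≤ m + 1) (hj : j ≤ m + 1) (hij : pos m i < pos m j) {x : Q}
    (hx : x = s i ∨ x = neg (s i)) (hn : nr x (s j) = true) (hd : (pos m j - pos m i) % 4 = 1) :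
    stp (altT D (pos m i)) x (s j) = true := by
  rcases hx with hx | hx
  · have h1 := xi_tight hm h hi
    have h2 := xi_tight hm h hj
    have p1 : 1 ≤ pos m i := by unfold pos; split_ifs <;> omega
    obtain ⟨p, hp⟩ : ∃ p, p = pos m i := ⟨_, rfl⟩
    obtain ⟨q, hq⟩ : ∃ q, q = pos m j := ⟨_, rfl⟩
    rw [← hp] at h1 hij hd p1 ⊢
    rw [← hq] at h2 hij hd
    have e3 : xi D (s j) = xor (xi D (neg x)) (xor (cntp D p) (cntp D q)) := by
      rw [xi_neg, hx, h2, h1]
      generalize xi D (s 1) = a
      generalize cntp D p = b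
      generalize cntp D q = c
      revert a b c
      decide
    have hn' : nr (neg (neg x)) (s j) = true := by rwa [H3DA.neg_neg]
    rw [← H3DA.neg_neg x]
    unfold altT
    by_cases hr2 : p % 2 = 1
    · rw [if_pos hr2]
      refine stp_of_xi _ _ _ hn' ?_
      rw [e3]
      congr 1
      unfold cntp
      cases hD : D.2
      · simp only [Bool.false_eq_true, if_false, Bool.not_false]
        by_cases a1 : (p / 2) % 2 = 1
        · have a2 : ¬ (q / 2) % 2 = 1 := by omega
          simp [a1, a2]
        · have a2 : (q / 2) % 2 = 1 := by omega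
          simp [a1, a2]
      · simp only [if_true, Bool.not_true]
        by_cases a1 : ((p - 1) / 2) % 2 = 1
        · have a2 : ((q - 1) / 2) % 2 = 1 := by omega
          simp [a1, a2]
        · have a2 : ¬ ((q - 1) / 2) % 2 = 1 := by omega
          simp [a1, a2]
    · rw [if_neg hr2]
      refine stp_co_of_xi _ _ _ hn' ?_
      rw [e3]
      congr 1
      unfold cntp
      cases hD : D.2
      · simp only [Bool.false_eq_true, if_false]
        by_cases a1 : (p / 2) % 2 = 1
        · have a2 : (q / 2) % 2 = 1 := by omega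
          simp [a1, a2]
        · have a2 : ¬ (q / 2) % 2 = 1 := by omega
          simp [a1, a2]
      · simp only [if_true]
        by_cases a1 : ((p - 1) / 2) % 2 = 1
        · have a2 : ¬ ((q - 1) / 2) % 2 = 1 := by omega
          simp [a1, a2]
        · have a2 : ((q - 1) / 2) % 2 = 1 := by omega
          simp [a1, a2]
  · rw [hx] at hn ⊢
    exact (tight_step hm h hi hj hij hn).1 hd

variable {V : Type*} {G : SimpleGraph V} {R : V → Bool} [Fintype V]
  {m : ℕ} {z c : ℕ → V}

/-- **SU.** Abstract form: `c j` is a leaf port at `z m`, its mate `c j'` is an inner port, `w`, `w'` are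
the linked vertices. -/
theorem su_core (hG : ClassC G R) (hc : Crit G R) (hcat : Cat G R m z c) {j j' : ℕ}
    (hj : j ≤ m + 1) (hjm : pos m j = m) (hj1 : 2 ≤ j') (hj2 : j' + 1 ≤ m)
    (hme : Me G R (c j) (c j')) {w w' : V} (hw : Lk G R (c j) w) (hw' : Lk G R (c j') w')
    {l : ℕ} (hl : l ≤ m + 1) (hlp : (pos m l + 1) % 4 = m % 4)
    (hlc : c l = w ∨ Me G R (c l) w ∨ c l = w' ∨ Me G R (c l) w') : False := by
  have hm := hcat.pos
  have hm2 : 2 ≤ m := by omega
  obtain ⟨f, D, hK⟩ := exists_ktight hG hc hcat hm2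
  obtain ⟨f1, f2, f3, f4⟩ := fits_other hcat hK.ok
  set p := c j with hp
  set q := c j' with hq
  have hpq : p ≠ q := hme.ne
  have hfq : f q = neg (f p) := f1 _ _ hme
  have hposj : pos m j' = j' := pos_mid (by omega) (by omega)
  have hzi : G.Adj p (z m) := by have := cat_adj_pos hcat hj; rwa [hjm] at this
  have hzj : G.Adj q (z j') := by have := cat_adj_pos hcat (show j' ≤ m + 1 by omega); rwa [hposj] at this
  have hzui := hcat.unc m (by omega) le_rfl
  have hzuj := hcat.unc j' (by omega) (by omega)
  have hmod : j' % 4 = m % 4 := by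
    have := (mates_dist hG hc hcat hj (show j' ≤ m + 1 by omega) hme).1
    rw [hjm, hposj] at this
    exact this.symm
  -- the neighbours of `p` and `q`
  have hwq : w ≠ q := by
    rintro rfl
    exact hme.not_He hw.1
  have hwz : w ≠ z m := fun h => hzui (h ▸ hw.2.2)
  have hqz : q ≠ z m := fun h => hzui (h ▸ hme.cov')
  have hpn : ∀ v, G.Adj p v → v = q ∨ v = w ∨ v = z m := fun v hv =>
    hG.third hme.1 hw.1.1 hzi hwq.symm hqz hwz hv
  have hwp' : w' ≠ p := by
    rintro rfl
    exact hme.symm.not_He hw'.1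
  have hwz' : w' ≠ z j' := fun h => hzuj (h ▸ hw'.2.2)
  have hpz : p ≠ z j' := fun h => hzuj (h ▸ hme.cov)
  have hqn : ∀ v, G.Adj q v → v = p ∨ v = w' ∨ v = z j' := fun v hv =>
    hG.third hme.symm.1 hw'.1.1 hzj hwp'.symm hpz hwz' hv
  have hwp : w ≠ p := hw.1.ne.symm
  have hwq' : w' ≠ q := hw'.1.ne.symm
  -- uniqueness of the ports
  have hup : ∀ i ≤ m + 1, c i = p → i = j := by
    intro i hi he
    refine port_unique hcat hi hj he ?_
    have a1 := cat_adj_pos hcat hi
    rw [he] at a1
    have hu := hcat.unc (pos m i) (one_le_pos hm) (pos_le hm hi)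
    rw [← pos_eq_cl, ← pos_eq_cl, hjm]
    rcases hpn _ a1 with h | h | h
    · exact absurd (h ▸ hme.cov') hu
    · exact absurd (h ▸ hw.2.2) hu
    · exact h
  have huq : ∀ i ≤ m + 1, c i = q → i = j' := by
    intro i hi he
    refine port_unique hcat hi (by omega) he ?_
    have a1 := cat_adj_pos hcat hi
    rw [he] at a1
    have hu := hcat.unc (pos m i) (one_le_pos hm) (pos_le hm hi)
    rw [← pos_eq_cl, ← pos_eq_cl, hposj]
    rcases hqn _ a1 with h | h | h
    · exact absurd (h ▸ hme.cov) hu
    · exact absurd (h ▸ hw'.2.2) hu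
    · exact h
  -- the new labellings
  set g : Q → V → Q := fun t v => if v = p then t else if v = q then neg t else f v with hgdef
  have gp : ∀ t, g t p = t := fun t => by simp only [hgdef, if_true]
  have gq : ∀ t, g t q = neg t := fun t => by simp only [hgdef, hpq.symm, if_true, if_false]
  have go : ∀ t v, v ≠ p → v ≠ q → g t v = f v := fun t v h1 h2 => by
    simp only [hgdef, h1, h2, if_false]
  have gc : ∀ t i, i ≤ m + 1 → i ≠ j → i ≠ j' → g t (c i) = f (c i) := fun t i hi h1 h2 =>
    go t _ (fun h => h1 (hup i hi h)) (fun h => h2 (huq i hi h))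
  -- the fork at `z m`
  obtain ⟨mt, hmt, hmtj, hmt2⟩ : ∃ i, i ≤ m + 1 ∧ i ≠ j ∧ ((j = m ∧ i = m + 1) ∨ (j = m + 1 ∧ i = m)) := by
    have hjj : j = m ∨ j = m + 1 := by
      unfold pos at hjm
      split_ifs at hjm with h1 h2
      · omega
      · right; exact h2
      · left; exact hjm
    rcases hjj with h | h
    · exact ⟨m + 1, le_rfl, by omega, Or.inl ⟨h, rfl⟩⟩
    · exact ⟨m, by omega, by omega, Or.inr ⟨h, rfl⟩⟩
  have hfrk : frk (altT D (m + 1)) (f p) (f (c mt)) = true := by
    have h3 := hK.tight.2.2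
    rcases hmt2 with ⟨h1, h2⟩ | ⟨h1, h2⟩
    · rw [h2, hp, h1]; exact h3
    · rw [h2, hp, h1, frk_symm]; exact h3
  have hgm : ∀ t, g t (c mt) = f (c mt) := fun t => gc t mt hmt hmtj (by omega)
  -- the caterpillar extends
  have hext : ∀ t, t ≠ f p → t ≠ neg (f (c mt)) → CExt m (fun l => g t (c l)) := by
    intro t ht ht2
    rw [cext_iff hm]
    have e0 := gc t 0 (by omega) (by rintro rfl; rw [pos_zero] at hjm; omega) (by omega)
    have e1 := gc t 1 (by omega) (by rintro rfl; rw [pos_one hm] at hjm; omega) (by omega)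
    refine ⟨?_, ?_, fun D' hD' => ?_⟩
    · show g t (c 0) ≠ neg (g t (c 1))
      rw [e0, e1]
      exact (frk_ne _ _ _ hK.tight.1).2
    · show g t (c m) ≠ neg (g t (c (m + 1)))
      rcases hmt2 with ⟨h1, h2⟩ | ⟨h1, h2⟩
      · rw [← h2, hgm, ← h1, ← hp, gp]; exact ht2
      · have e2 : g t (c (m + 1)) = t := by rw [← h1, ← hp, gp]
        have e3 : g t (c m) = f (c mt) := by rw [← h2]; exact hgm t
        rw [e2, e3]
        exact H3DA.ne_neg_symm ht2
    · have hD1 : frk D' (g t (c 0)) (g t (c 1)) = true := hD'.1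
      rw [e0, e1] at hD1
      have hDD : D' = D := frk_unique _ _ _ _ hD1 hK.tight.1
      subst hDD
      have a1 := hD'.2.1 (j' - 1) (by omega) (by omega)
      have a2 := hD'.2.1 j' (by omega) (by omega)
      have b1 := hK.tight.2.1 (j' - 1) (by omega) (by omega)
      have b2 := hK.tight.2.1 j' (by omega) (by omega)
      rw [show j' - 1 + 1 = j' by omega] at a1 b1
      have c1 : altT D' j' = co (altT D' (j' - 1)) := by
        have := altT_succ D' (j' - 1)
        rwa [show j' - 1 + 1 = j' by omega] at this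
      have hjne : j' - 1 ≠ j ∧ j' + 1 ≠ j := by
        constructor
        · rintro h
          rw [← h, pos_mid (by omega) (by omega)] at hjm
          omega
        · rintro h
          rw [← h, pos_mid (by omega) (by omega)] at hjm
          omega
      have a1' : stp (altT D' (j' - 1)) (neg (g t (c (j' - 1)))) (g t q) = true := a1
      have a2' : stp (altT D' j') (neg (g t q)) (g t (c (j' + 1))) = true := a2
      have b1' : stp (altT D' (j' - 1)) (neg (f (c (j' - 1)))) (f q) = true := b1
      have b2' : stp (altT D' j') (neg (f q)) (f (c (j' + 1))) = true := b2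
      rw [gq, gc t (j' - 1) (by omega) hjne.1 (by omega)] at a1'
      rw [gq, gc t (j' + 1) (by omega) hjne.2 (by omega), c1] at a2'
      rw [c1] at b2'
      have := inner_unique _ _ _ _ _ a1' a2' b1' b2'
      rw [hfq] at this
      exact ht (H3DA.neg_inj this)
  -- the labels of the linked vertices
  have hfpw : nr (f p) (f w) = true := f2 _ _ hw
  have hfqw : nr (f q) (f w') = true := f2 _ _ hw'
  have hb : nr (neg (f w')) (f p) = true := by
    rw [hfq, nr_neg] at hfqw
    rw [nr_neg]
    rw [H3DA.nr_comm] at hfqw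
    exact hfqw
  have hfl : (f w = f (c l) ∨ f w = neg (f (c l))) ∨
      (neg (f w') = f (c l) ∨ neg (f w') = neg (f (c l))) := by
    rcases hlc with h | h | h | h
    · exact Or.inl (Or.inl (by rw [h]))
    · exact Or.inl (Or.inr (f1 _ _ h))
    · exact Or.inr (Or.inr (by rw [h]))
    · exact Or.inr (Or.inl (by rw [f1 _ _ h, H3DA.neg_neg]))
  have hlpos : pos m l < m := by
    have h1 := pos_le hm hl
    rcases lt_or_eq_of_le h1 with h2 | h2
    · exact h2
    · rw [h2] at hlp; omega
  have hT : altT D (pos m l) = altT D (m + 1) := altT_parity D (by omega)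
  have hd : (pos m j - pos m l) % 4 = 1 := by rw [hjm]; omega
  have hst : stp (altT D (m + 1)) (f w) (f p) = true ∨
      stp (altT D (m + 1)) (neg (f w')) (f p) = true := by
    rw [← hT]
    rcases hfl with h | h
    · left
      exact tight_step' hm hK.tight hl hj (by rw [hjm]; exact hlpos) h (nr_symm hfpw) hd
    · right
      exact tight_step' hm hK.tight hl hj (by rw [hjm]; exact hlpos) h hb hd
  obtain ⟨t, ht, hta, htb, htm⟩ := su_key _ _ _ _ _ hfrk (nr_symm hfpw) hb hst
  have htq : nr (neg t) (f w') = true := by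
    rw [nr_neg]
    rw [nr_neg'] at htb
    exact htb
  -- the other components
  have hpc : ∀ m' z' c', Cat G R m' z' c' → (∀ v, v ∈ cSupp m z → v ∉ cSupp m' z') →
      ∀ l ≤ m' + 1, c' l ≠ p ∧ c' l ≠ q := by
    intro m' z' c' hC hd l hl
    have ha := cat_adj_pos hC hl
    have h1 : z' (pos m' l) ∈ cSupp m' z' := mem_cSupp (one_le_pos hC.pos) (pos_le hC.pos hl)
    have h2 := hC.unc _ (one_le_pos hC.pos) (pos_le hC.pos hl)
    constructor
    · intro he
      rw [he] at ha
      rcases hpn _ ha with h | h | h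
      · exact h2 (h ▸ hme.cov')
      · exact h2 (h ▸ hw.2.2)
      · exact hd _ (mem_cSupp hm le_rfl : z m ∈ cSupp m z) (h ▸ h1)
    · intro he
      rw [he] at ha
      rcases hqn _ ha with h | h | h
      · exact h2 (h ▸ hme.cov)
      · exact h2 (h ▸ hw'.2.2)
      · exact hd _ (mem_cSupp (by omega) (by omega) : z j' ∈ cSupp m z) (h ▸ h1)
  have hTn : ∀ v a b, IsTwo G R v a b → a ≠ p ∧ a ≠ q := by
    intro v a b hT
    constructor
    · rintro rfl
      rcases hpn v hT.2.1.symm with h | h | h
      · exact hT.1 (h ▸ hme.cov')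
      · exact hT.1 (h ▸ hw.2.2)
      · subst h
        exact isTwo_not_cat hcat hm le_rfl hT
    · rintro rfl
      rcases hqn v hT.2.1.symm with h | h | h
      · exact hT.1 (h ▸ hme.cov)
      · exact hT.1 (h ▸ hw'.2.2)
      · subst h
        exact isTwo_not_cat hcat (by omega) (by omega) hT
  refine no_cext hG hc hcat (f := g t) ?_ ?_ ?_ ?_ (hext t ht htm)
  · intro u v huv
    by_cases hu : u = p
    · subst hu
      rw [hG.matching huv hme, gp, gq]
    by_cases hu' : u = q
    · rw [hu'] at huv ⊢
      rw [hG.matching huv hme.symm, gp, gq, H3DA.neg_neg]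
    · have hv : v ≠ p := by
        intro h
        rw [h] at huv
        exact hu' (hG.matching huv.symm hme)
      have hv' : v ≠ q := by
        intro h
        rw [h] at huv
        exact hu (hG.matching huv.symm hme.symm)
      rw [go t u hu hu', go t v hv hv']
      exact f1 _ _ huv
  · have key : ∀ u v, Lk G R u v → (u = p ∨ u = q) → nr (g t u) (g t v) = true := by
      intro u v huv hu
      rcases hu with hu | hu
      · rw [hu] at huv ⊢
        rw [huv.unique hG hw, gp, go t w hwp hwq]
        exact hta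
      · rw [hu] at huv ⊢
        rw [huv.unique hG hw', gq, go t w' hwp' hwq']
        exact htq
    intro u v huv
    by_cases hu : u = p ∨ u = q
    · exact key u v huv hu
    · by_cases hv : v = p ∨ v = q
      · exact nr_symm (key v u huv.symm hv)
      · rw [not_or] at hu hv
        rw [go t u hu.1 hu.2, go t v hv.1 hv.2]
        exact f2 _ _ huv
  · intro v a b hT
    obtain ⟨a1, a2⟩ := hTn v a b hT
    obtain ⟨b1, b2⟩ := hTn v b a (isTwo_symm hT)
    rw [go t a a1 a2, go t b b1 b2]
    exact f3 v a b hT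
  · intro m' z' c' hC hd
    exact (f4 m' z' c' hC hd).congr hC.pos (fun l hl =>
      (go t _ (hpc m' z' c' hC hd l hl).1 (hpc m' z' c' hC hd l hl).2).symm)

/-- **SU/SUE** along a chain, leaf port `x v`. -/
theorem su_x (hG : ClassC G R) (hc : Crit G R) (hcat : Cat G R m z c) {k : ℕ} {x y : ℕ → V}
    (h : Chn G R k x y) {v : ℕ} (hv1 : 2 ≤ v) (hv2 : v + 1 ≤ k) {j j' : ℕ} (hj : j ≤ m + 1)
    (hjm : pos m j = m) (hj1 : 2 ≤ j') (hj2 : j' + 1 ≤ m)
    (hleaf : (c j = x v ∧ c j' = y v) ∨ (c j = y v ∧ c j' = x v))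
    {l : ℕ} (hl : l ≤ m + 1) (hlp : (pos m l + 1) % 4 = m % 4)
    (hlc : c l = x (v - 1) ∨ c l = y (v - 1) ∨ c l = x (v + 1) ∨ c l = y (v + 1)) : False := by
  have m0 := h.me v (by omega) (by omega)
  have m1 := h.me (v - 1) (by omega) (by omega)
  have m2 := h.me (v + 1) (by omega) (by omega)
  have k1 : Lk G R (x v) (y (v - 1)) := by
    have := h.lk (v - 1) (by omega) (by omega)
    rw [show v - 1 + 1 = v by omega] at this
    exact this.symm
  have k2 : Lk G R (y v) (x (v + 1)) := h.lk v (by omega) (by omega)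
  rcases hleaf with ⟨e1, e2⟩ | ⟨e1, e2⟩
  · refine su_core hG hc hcat hj hjm hj1 hj2 (w := y (v - 1)) (w' := x (v + 1)) ?_ ?_ ?_ hl hlp ?_
    · rw [e1, e2]; exact m0
    · rw [e1]; exact k1
    · rw [e2]; exact k2
    · rcases hlc with h1 | h1 | h1 | h1
      · right; left; rw [h1]; exact m1
      · left; exact h1
      · right; right; left; exact h1
      · right; right; right; rw [h1]; exact m2.symm
  · refine su_core hG hc hcat hj hjm hj1 hj2 (w := x (v + 1)) (w' := y (v - 1)) ?_ ?_ ?_ hl hlp ?_
    · rw [e1, e2]; exact m0.symm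
    · rw [e1]; exact k2
    · rw [e2]; exact k1
    · rcases hlc with h1 | h1 | h1 | h1
      · right; right; right; rw [h1]; exact m1
      · right; right; left; exact h1
      · left; exact h1
      · right; left; rw [h1]; exact m2.symm

end CLB.H2
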